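import Pool.Agent.H731_WI.Estimates

/-!
# Weak invertibility in `E^q(μ)` does not imply weak invertibility in `E^p(μ)`

There are a symmetric measure `μ` on the closed unit disc and a function `f ∈ E^2(μ)` which is
weakly invertible in `E^q(μ)` for every `q ∈ (0,2)`, but not in `E^2(μ)`.
-/

set_option autoImplicit false

namespace Pool.Agent.Results.MP_d61770_an.NotWeaklyInvertible

open MeasureTheory Filter Topology H731WI
open scoped ENNReal

/-- The symmetric measure `(2π)⁻¹ dν(r) dθ` on the plane: the image of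
`(2π)⁻¹ ν ⊗ dθ|_(0,2π]` under `(r, θ) ↦ r e^{iθ}`. -/
noncomputable def symMeasure (ν : Measure ℝ) : Measure ℂ :=
  ENNReal.ofReal (2 * Real.pi)⁻¹ •
    (ν.prod (volume.restrict (Set.Ioc 0 (2 * Real.pi)))).map
      (fun x : ℝ × ℝ => (x.1 : ℂ) * Complex.exp (x.2 * Complex.I))

/-- The conditions on the radial part `ν`: a finite measure on `[0,1]` with `ν {0} = 0` and
`ν [r,1] > 0` for all `0 ≤ r < 1`. -/
structure IsRadialPart (ν : Measure ℝ) : Prop where
  finite : ν Set.univ < ⊤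
  supported : ν (Set.Icc 0 1)ᶜ = 0
  zero : ν {0} = 0
  pos : ∀ r : ℝ, 0 ≤ r → r < 1 → 0 < ν (Set.Icc r 1)

/-- `M_p(r; f; μ)`, the `L^p(μ)` mean of `w ↦ f (r w)` over the closed unit disc. -/
noncomputable def Mp (p : ℝ) (μ : Measure ℂ) (f : ℂ → ℂ) (r : ℝ) : ℝ≥0∞ :=
  (∫⁻ w in Metric.closedBall 0 1, ENNReal.ofReal (‖f (r * w)‖ ^ p) ∂μ) ^ (1 / p)

/-- `‖f‖_{p,μ}`, the supremum of `M_p(r; f; μ)` over `0 ≤ r < 1`. -/
noncomputable def normE (p : ℝ) (μ : Measure ℂ) (f : ℂ → ℂ) : ℝ≥0∞ :=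
  ⨆ r : Set.Ico (0 : ℝ) 1, Mp p μ f r

/-- `f ∈ E^p(μ)`: `f` is analytic on the open unit disc and `‖f‖_{p,μ} < ∞`. -/
def MemE (p : ℝ) (μ : Measure ℂ) (f : ℂ → ℂ) : Prop :=
  DifferentiableOn ℂ f (Metric.ball 0 1) ∧ normE p μ f < ⊤

/-- `f` is weakly invertible in `E^p(μ)`: `f ∈ E^p(μ)` and there are polynomials `P n` with
`‖P n f - 1‖_{p,μ} → 0`. -/
def WeaklyInvertible (p : ℝ) (μ : Measure ℂ) (f : ℂ → ℂ) : Prop :=
  MemE p μ f ∧ ∃ P : ℕ → Polynomial ℂ,
    Tendsto (fun n => normE p μ (fun z => (P n).eval z * f z - 1)) atTop (𝓝 0)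

/-- the radial measure of the example -/
noncomputable def ν₀ : Measure ℝ :=
  Measure.sum (fun j : ℕ => ENNReal.ofReal (ww j) • Measure.dirac (rr j))

theorem lint_formula {G : ℂ → ℝ≥0∞} (hG : Measurable G) :
    ∫⁻ w in Metric.closedBall 0 1, G w ∂(symMeasure ν₀) =
      ∑' j, ENNReal.ofReal (ww j) * (ENNReal.ofReal (2 * Real.pi)⁻¹ *
        ∫⁻ θ in Set.Ioc 0 (2 * Real.pi), G (rr j * Complex.exp (θ * Complex.I))) := by
  classical
  rw [← lintegral_indicator Metric.isClosed_closedBall.measurableSet]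
  set G' : ℂ → ℝ≥0∞ := (Metric.closedBall (0:ℂ) 1).indicator G with hG'
  have hG'm : Measurable G' := hG.indicator Metric.isClosed_closedBall.measurableSet
  have hmap : Measurable (fun x : ℝ × ℝ => (x.1 : ℂ) * Complex.exp (x.2 * Complex.I)) := by
    fun_prop
  unfold symMeasure
  have hcomp : Measurable (fun a : ℝ × ℝ => G' ((a.1 : ℂ) * Complex.exp (a.2 * Complex.I))) :=
    hG'm.comp hmap
  rw [lintegral_smul_measure, lintegral_map hG'm hmap, lintegral_prod _ hcomp.aemeasurable]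
  unfold ν₀
  rw [lintegral_sum_measure]
  simp_rw [lintegral_smul_measure, lintegral_dirac]
  rw [smul_eq_mul, ← ENNReal.tsum_mul_left]
  refine tsum_congr fun j => ?_
  rw [smul_eq_mul]
  have h1 : (∫⁻ θ in Set.Ioc 0 (2 * Real.pi), G' (rr j * Complex.exp (θ * Complex.I))) =
      ∫⁻ θ in Set.Ioc 0 (2 * Real.pi), G (rr j * Complex.exp (θ * Complex.I)) := by
    refine lintegral_congr fun θ => ?_
    rw [hG', Set.indicator_of_mem]
    rw [mem_closedBall_zero_iff, pt_norm]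
    exact (rr_lt_one j).le
  rw [h1]
  ring

theorem circ_formula {g : ℂ → ℂ} (hg : ContinuousOn g (Metric.ball 0 1)) {s : ℝ} (hs0 : 0 ≤ s)
    (hs : s < 1) :
    ENNReal.ofReal (2 * Real.pi)⁻¹ * (∫⁻ θ in Set.Ioc 0 (2 * Real.pi),
      ENNReal.ofReal (‖g (s * Complex.exp (θ * Complex.I))‖ ^ (2:ℝ))) =
      ENNReal.ofReal (m2 g s) := by
  have hc : Continuous (fun θ : ℝ => g (s * Complex.exp (θ * Complex.I))) := by
    have h1 : Continuous (fun θ : ℝ => (s : ℂ) * Complex.exp (θ * Complex.I)) := by fun_prop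
    refine hg.comp_continuous h1 fun θ => ?_
    rw [mem_ball_zero_iff, norm_mul, Complex.norm_exp_ofReal_mul_I, mul_one, Complex.norm_real,
      Real.norm_eq_abs, abs_of_nonneg hs0]
    exact hs
  rw [m2_eq, ENNReal.ofReal_mul (by positivity),
    intervalIntegral.integral_of_le (by positivity),
    ofReal_integral_eq_lintegral_ofReal]
  · congr 1
    refine lintegral_congr fun θ => ?_
    norm_cast
  · have : Continuous (fun θ : ℝ => ‖g (s * Complex.exp (θ * Complex.I))‖ ^ 2) := hc.norm.pow 2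
    exact (this.intervalIntegrable 0 (2 * Real.pi)).1
  · exact Eventually.of_forall fun θ => by positivity

theorem meas_dil {g : ℂ → ℂ} (hg : Measurable g) (p r : ℝ) :
    Measurable (fun w : ℂ => ENNReal.ofReal (‖g (r * w)‖ ^ p)) := by
  fun_prop

theorem sq_formula {g : ℂ → ℂ} (hgm : Measurable g) (hg : ContinuousOn g (Metric.ball 0 1))
    {r : ℝ} (hr0 : 0 ≤ r) (hr : r < 1) :
    ∫⁻ w in Metric.closedBall 0 1, ENNReal.ofReal (‖g (r * w)‖ ^ (2:ℝ)) ∂(symMeasure ν₀) =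
      ∑' j, ENNReal.ofReal (ww j * m2 g (r * rr j)) := by
  rw [lint_formula (meas_dil hgm 2 r)]
  refine tsum_congr fun j => ?_
  rw [ENNReal.ofReal_mul (ww_pos j).le, ← circ_formula hg (mul_nonneg hr0 (rr_pos j).le)
    (by nlinarith [rr_pos j, rr_lt_one j])]
  congr 2
  refine lintegral_congr fun θ => ?_
  rw [← mul_assoc]
  push_cast
  rfl

theorem sum_half : ∑' j : ℕ, ENNReal.ofReal ((1 / 2 : ℝ) ^ j) = 2 := by
  rw [← ENNReal.ofReal_tsum_of_nonneg (fun j => by positivity)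
    (summable_geometric_of_lt_one (by norm_num) (by norm_num)),
    tsum_geometric_of_lt_one (by norm_num) (by norm_num)]
  norm_num

theorem sum_ww : ∑' j : ℕ, ENNReal.ofReal (ww j) ≤ 1 := by
  calc ∑' j : ℕ, ENNReal.ofReal (ww j) ≤ ∑' j : ℕ, ENNReal.ofReal ((1 / 2 : ℝ) ^ j * (1 / 2)) := by
        refine ENNReal.tsum_le_tsum fun j => ENNReal.ofReal_le_ofReal ?_
        refine (ww_le' j).trans ?_
        have : (0:ℝ) ≤ (1 / 2) ^ j := by positivity
        linarith
    _ = 1 := by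
        simp_rw [ENNReal.ofReal_mul (show (0:ℝ) ≤ (1 / 2) ^ _ by positivity)]
        rw [ENNReal.tsum_mul_right, sum_half]
        rw [show (2 : ℝ≥0∞) = ENNReal.ofReal 2 by norm_num, ← ENNReal.ofReal_mul (by norm_num)]
        norm_num

theorem ball_mass : (symMeasure ν₀) (Metric.closedBall 0 1) ≤ 1 := by
  have h := lint_formula (G := fun _ => 1) measurable_const
  rw [setLIntegral_one] at h
  rw [h]
  refine le_trans (le_of_eq ?_) sum_ww
  refine tsum_congr fun j => ?_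
  rw [setLIntegral_one, Real.volume_Ioc, sub_zero, ← ENNReal.ofReal_mul (by positivity),
    inv_mul_cancel₀ (by positivity), ENNReal.ofReal_one, mul_one]

theorem ff_sq {r : ℝ} (hr0 : 0 ≤ r) (hr : r < 1) :
    ∫⁻ w in Metric.closedBall 0 1, ENNReal.ofReal (‖ff (r * w)‖ ^ (2:ℝ)) ∂(symMeasure ν₀) ≤ 2 := by
  rw [sq_formula ff_meas ff_diff.continuousOn hr0 hr, ← sum_half]
  refine ENNReal.tsum_le_tsum fun j => ENNReal.ofReal_le_ofReal ?_
  rw [← ww_mul j]
  apply mul_le_mul_of_nonneg_left _ (ww_pos j).le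
  apply m2_mono ff_diff (mul_nonneg hr0 (rr_pos j).le) _ (rr_lt_one j)
  nlinarith [rr_pos j]


theorem g_diff (P : Polynomial ℂ) :
    DifferentiableOn ℂ (fun z => P.eval z * ff z - 1) (Metric.ball 0 1) :=
  (P.differentiable.differentiableOn.mul ff_diff).sub_const 1

theorem g_meas (P : Polynomial ℂ) : Measurable (fun z => P.eval z * ff z - 1) :=
  (P.continuous.measurable.mul ff_meas).sub measurable_const

theorem finite_sums {g : ℂ → ℂ} (hgm : Measurable g) (hg : ContinuousOn g (Metric.ball 0 1))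
    {δ : ℝ} (hδ : 0 ≤ δ) (h : normE 2 (symMeasure ν₀) g ≤ ENNReal.ofReal δ) (J : ℕ) :
    ∑ k ∈ Finset.range J, ww k * m2 g (rr k) ≤ δ ^ 2 := by
  have h1 : ∀ r : ℝ, 0 ≤ r → r < 1 →
      ∑ k ∈ Finset.range J, ww k * m2 g (r * rr k) ≤ δ ^ 2 := by
    intro r hr0 hr
    have h2 : Mp 2 (symMeasure ν₀) g r ≤ ENNReal.ofReal δ :=
      (le_iSup (fun r : Set.Ico (0 : ℝ) 1 => Mp 2 (symMeasure ν₀) g r) ⟨r, hr0, hr⟩).trans h
    unfold Mp at h2
    rw [sq_formula hgm hg hr0 hr] at h2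
    have h3 := ENNReal.rpow_le_rpow h2 (show (0:ℝ) ≤ 2 by norm_num)
    rw [← ENNReal.rpow_mul] at h3
    norm_num at h3
    have h4 : ENNReal.ofReal (∑ k ∈ Finset.range J, ww k * m2 g (r * rr k)) ≤
        ENNReal.ofReal (δ ^ 2) := by
      rw [ENNReal.ofReal_sum_of_nonneg fun i _ => mul_nonneg (ww_pos i).le (m2_nonneg _ _)]
      refine (ENNReal.sum_le_tsum _).trans (h3.trans (le_of_eq ?_))
      rw [ENNReal.ofReal_pow hδ]
    exact (ENNReal.ofReal_le_ofReal_iff (by positivity)).mp h4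
  have h2 : Tendsto (fun r : ℝ => ∑ k ∈ Finset.range J, ww k * m2 g (r * rr k)) (𝓝[<] 1)
      (𝓝 (∑ k ∈ Finset.range J, ww k * m2 g (rr k))) := by
    apply tendsto_finsetSum
    intro k _
    apply Tendsto.const_mul
    have h3 : ContinuousAt (m2 g) (rr k) :=
      (m2_cont hg).continuousAt (Ico_mem_nhds (rr_pos k) (rr_lt_one k))
    have h4 : Tendsto (fun r : ℝ => r * rr k) (𝓝[<] 1) (𝓝 (rr k)) := by
      have : Tendsto (fun r : ℝ => r * rr k) (𝓝 1) (𝓝 (1 * rr k)) := tendsto_id.mul_const _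
      rw [one_mul] at this
      exact this.mono_left nhdsWithin_le_nhds
    exact h3.tendsto.comp h4
  refine le_of_tendsto h2 ?_
  have h3 : Set.Ico (0:ℝ) 1 ∈ 𝓝[<] (1:ℝ) := Ico_mem_nhdsLT (by norm_num)
  filter_upwards [h3] with r hr
  exact h1 r hr.1 hr.2

theorem not_wi : ¬ WeaklyInvertible 2 (symMeasure ν₀) ff := by
  rintro ⟨_, P, hP⟩
  have hw := ww_pos 0
  have hw2 := ww_le' 0
  set δ : ℝ := Real.sqrt (ww 0 / 100) with hδ
  have hδpos : 0 < δ := Real.sqrt_pos.mpr (by positivity)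
  have hδ2 : δ ^ 2 = ww 0 / 100 := Real.sq_sqrt (by positivity)
  have h1 : ∀ᶠ n in atTop, normE 2 (symMeasure ν₀) (fun z => (P n).eval z * ff z - 1) <
      ENNReal.ofReal δ := hP.eventually_lt_const (ENNReal.ofReal_pos.mpr hδpos)
  obtain ⟨n, hn⟩ := h1.exists
  have h2 := finite_sums (g_meas (P n)) (g_diff (P n)).continuousOn hδpos.le hn.le
  have h3 := main_ineq (P n).coeff ((P n).natDegree + 1) (δ ^ 2) (by
    intro J
    have := h2 J
    simp_rw [Polynomial.eval_eq_sum_range] at this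
    exact this)
  rw [← Polynomial.eval_eq_sum_range] at h3
  have h4 := h2 1
  rw [Finset.sum_range_one] at h4
  have h5 : m2 (fun z => (P n).eval z * ff z - 1) 0 ≤
      m2 (fun z => (P n).eval z * ff z - 1) (rr 0) :=
    m2_mono (g_diff (P n)) le_rfl (rr_pos 0).le (rr_lt_one 0)
  rw [m2_zero_radius, ff_zero, mul_one] at h5
  set x := (P n).eval 0 with hx
  have h6 : ww 0 * ‖x - 1‖ ^ 2 ≤ ww 0 / 100 := by
    rw [← hδ2]
    exact (mul_le_mul_of_nonneg_left h5 hw.le).trans h4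
  have h7 : ‖x - 1‖ ^ 2 ≤ 1 / 100 := by
    have : ww 0 * ‖x - 1‖ ^ 2 ≤ ww 0 * (1 / 100) := by linarith
    exact le_of_mul_le_mul_left this hw
  have h8 : ‖x - 1‖ ≤ 1 / 10 := by
    nlinarith [norm_nonneg (x - 1)]
  have h9 : 9 / 10 ≤ ‖x‖ := by
    have : (1:ℝ) ≤ ‖x‖ + ‖x - 1‖ := by
      calc (1:ℝ) = ‖(1:ℂ)‖ := norm_one.symm
        _ = ‖x - (x - 1)‖ := by congr 1; ring
        _ ≤ _ := norm_sub_le _ _
    linarith
  have h10 : (81 / 100 : ℝ) ≤ ‖x‖ ^ 2 := by nlinarith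
  rw [hδ2] at h3
  norm_num at hw2
  linarith


theorem holder (lam : Measure ℂ) {G : ℂ → ℂ} (hG : Measurable G) {q : ℝ} (hq0 : 0 < q)
    (hq2 : q < 2) :
    ∫⁻ w, ENNReal.ofReal (‖G w‖ ^ q) ∂lam ≤
      (∫⁻ w, ENNReal.ofReal (‖G w‖ ^ (2:ℝ)) ∂lam) ^ (q / 2) * (lam Set.univ) ^ (1 - q / 2) := by
  have hconj : Real.HolderConjugate (q / 2)⁻¹ (1 - q / 2)⁻¹ :=
    Real.HolderConjugate.inv_one_sub_inv (by linarith) (by linarith)
  have hGm : Measurable (fun w => ENNReal.ofReal (‖G w‖ ^ q)) := by fun_prop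
  have h := ENNReal.lintegral_mul_le_Lp_mul_Lq lam hconj hGm.aemeasurable
    (aemeasurable_const (b := (1 : ℝ≥0∞)))
  have h1 : ∀ w, ENNReal.ofReal (‖G w‖ ^ q) ^ (q / 2)⁻¹ = ENNReal.ofReal (‖G w‖ ^ (2:ℝ)) := by
    intro w
    rw [ENNReal.ofReal_rpow_of_nonneg (by positivity) (by positivity),
      ← Real.rpow_mul (norm_nonneg _)]
    congr 2
    field_simp
  simp_rw [h1] at h
  simpa using h

theorem poly_approx {F : ℂ → ℂ} (hF : Differentiable ℂ F) {ε : ℝ} (hε : 0 < ε) :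
    ∃ P : Polynomial ℂ, ∀ z : ℂ, ‖z‖ ≤ 1 → ‖P.eval z - F z‖ ≤ ε := by
  have hps := (hF.differentiableOn (s := Metric.closedBall 0 ((3 : NNReal) : ℝ))).hasFPowerSeriesOnBall
    (R := 3) (by norm_num)
  have hQR : ((2 : NNReal) : ENNReal) < ((3 : NNReal) : ENNReal) := by
    rw [ENNReal.coe_lt_coe]; norm_num
  have hu := hps.tendstoUniformlyOn hQR
  simp only [zero_add] at hu
  rw [Metric.tendstoUniformlyOn_iff] at hu
  obtain ⟨n, hn⟩ := (hu ε hε).exists
  set p := cauchyPowerSeries F 0 ((3 : NNReal) : ℝ) with hp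
  refine ⟨∑ k ∈ Finset.range n, Polynomial.C (p.coeff k) * Polynomial.X ^ k, fun z hz => ?_⟩
  have h1 := hn z (by
    rw [mem_ball_zero_iff]
    refine lt_of_le_of_lt hz ?_
    norm_num)
  rw [dist_comm, dist_eq_norm] at h1
  have h2 : p.partialSum n z =
      (∑ k ∈ Finset.range n, Polynomial.C (p.coeff k) * Polynomial.X ^ k).eval z := by
    unfold FormalMultilinearSeries.partialSum
    rw [Polynomial.eval_finsetSum]
    refine Finset.sum_congr rfl fun k _ => ?_
    rw [FormalMultilinearSeries.apply_eq_pow_smul_coeff, smul_eq_mul, Polynomial.eval_mul,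
      Polynomial.eval_C, Polynomial.eval_pow, Polynomial.eval_X, mul_comm]
  rw [h2] at h1
  exact h1.le

theorem exists_P (J : ℕ) : ∃ P : Polynomial ℂ,
    (∀ z : ℂ, ‖z‖ ≤ rr J → ‖P.eval z * ff z - 1‖ ≤ 2 * (1 / 2) ^ J) ∧
    (∀ z : ℂ, ‖z‖ < 1 → ‖P.eval z * ff z - 1‖ ≤ 2 * Real.exp (Ms (J + 1)) * ‖ff z‖ + 1) := by
  set M : ℝ := ((Ms (J + 1) : NNReal) : ℝ) with hM
  have hM0 : 0 ≤ M := (Ms (J + 1)).2
  set F : ℂ → ℂ := fun z => Complex.exp (-(Hs (J + 1)).eval z) with hF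
  have hFd : Differentiable ℂ F := by
    rw [hF]
    have := (Hs (J + 1)).differentiable
    fun_prop
  set η : ℝ := (1 / 2) ^ J * Real.exp (-(M + 1)) with hη
  have hη0 : 0 < η := by positivity
  have hη1 : η ≤ 1 := by
    have h1 : (1 / 2 : ℝ) ^ J ≤ 1 := pow_le_one₀ (by norm_num) (by norm_num)
    have h2 : Real.exp (-(M + 1)) ≤ 1 := Real.exp_le_one_iff.mpr (by linarith)
    have h3 := Real.exp_pos (-(M + 1))
    nlinarith
  obtain ⟨P, hP⟩ := poly_approx hFd hη0
  refine ⟨P, fun z hz => ?_, fun z hz => ?_⟩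
  · have hz1 : ‖z‖ < 1 := lt_of_le_of_lt hz (rr_lt_one J)
    have h1 := hs_sub (k := J) hz
    have hhalf : (1 / 2 : ℝ) ^ J ≤ 1 := pow_le_one₀ (by norm_num) (by norm_num)
    have hhalf0 : (0 : ℝ) ≤ (1 / 2) ^ J := by positivity
    have h2 : ‖F z * ff z - 1‖ ≤ 2 * (1 / 40 * (1 / 2) ^ J) := by
      have : F z * ff z = Complex.exp (hs z - (Hs (J + 1)).eval z) := by
        rw [ff_eq hz1, hF, ← Complex.exp_add]
        congr 1; ring
      rw [this]
      refine (Complex.norm_exp_sub_one_le (by linarith)).trans ?_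
      linarith
    have h3 : ‖ff z‖ ≤ Real.exp (M + 1) := by
      rw [ff_eq hz1, Complex.norm_exp]
      apply Real.exp_le_exp.mpr
      have h4 : ‖hs z‖ ≤ M + 1 := by
        calc ‖hs z‖ = ‖(hs z - (Hs (J + 1)).eval z) + (Hs (J + 1)).eval z‖ := by congr 1; ring
          _ ≤ _ := (norm_add_le _ _).trans (by linarith [Hs_bound (J + 1) hz1.le])
      exact (Complex.re_le_norm _).trans h4
    have h4 : ‖(P.eval z - F z) * ff z‖ ≤ (1 / 2) ^ J := by
      rw [norm_mul]
      calc ‖P.eval z - F z‖ * ‖ff z‖ ≤ η * Real.exp (M + 1) :=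
            mul_le_mul (hP z hz1.le) h3 (norm_nonneg _) hη0.le
        _ = (1 / 2) ^ J * (Real.exp (-(M + 1)) * Real.exp (M + 1)) := by rw [hη]; ring
        _ = (1 / 2) ^ J := by rw [← Real.exp_add]; simp
    calc ‖P.eval z * ff z - 1‖ = ‖(P.eval z - F z) * ff z + (F z * ff z - 1)‖ := by
          congr 1; ring
      _ ≤ _ := (norm_add_le _ _).trans (by linarith)
  · have h1 : ‖P.eval z‖ ≤ 2 * Real.exp M := by
      have h2 : ‖F z‖ ≤ Real.exp M := by
        rw [hF, Complex.norm_exp]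
        apply Real.exp_le_exp.mpr
        have h3 := Hs_bound (J + 1) hz.le
        have h4 := Complex.abs_re_le_norm ((Hs (J + 1)).eval z)
        rw [Complex.neg_re]
        have := (abs_le.mp h4).1
        linarith
      have h3 := hP z hz.le
      have h4 : (1:ℝ) ≤ Real.exp M := Real.one_le_exp hM0
      calc ‖P.eval z‖ = ‖(P.eval z - F z) + F z‖ := by congr 1; ring
        _ ≤ _ := (norm_add_le _ _).trans (by linarith)
    refine (norm_sub_le _ _).trans ?_
    rw [norm_mul, norm_one]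
    have := mul_le_mul_of_nonneg_right h1 (norm_nonneg (ff z))
    linarith

theorem tail_mass (J : ℕ) :
    (symMeasure ν₀) (Metric.closedBall 0 1 ∩ {w | rr J < ‖w‖}) ≤
      ENNReal.ofReal (2 * Real.exp (-((J + 7) * (Ms (J + 1) + 1)))) := by
  classical
  have hA : MeasurableSet {w : ℂ | rr J < ‖w‖} := measurableSet_lt measurable_const measurable_norm
  have h := lint_formula (G := Set.indicator {w : ℂ | rr J < ‖w‖} (fun _ => 1))
    (measurable_const.indicator hA)
  rw [lintegral_indicator hA, setLIntegral_one, Measure.restrict_apply hA, Set.inter_comm] at h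
  rw [h]
  have h1 : ∀ j : ℕ, ENNReal.ofReal (ww j) * (ENNReal.ofReal (2 * Real.pi)⁻¹ *
      ∫⁻ θ in Set.Ioc 0 (2 * Real.pi), Set.indicator {w : ℂ | rr J < ‖w‖} (fun _ => (1 : ℝ≥0∞))
        (rr j * Complex.exp (θ * Complex.I))) ≤
      ENNReal.ofReal ((1 / 2) ^ j) * ENNReal.ofReal (Real.exp (-((J + 7) * (Ms (J + 1) + 1)))) := by
    intro j
    rcases le_or_gt j J with hj | hj
    · have h2 : ∀ θ : ℝ, Set.indicator {w : ℂ | rr J < ‖w‖} (fun _ => (1 : ℝ≥0∞))
          (rr j * Complex.exp (θ * Complex.I)) = 0 := by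
        intro θ
        apply Set.indicator_of_notMem
        simp only [Set.mem_ofPred_eq, pt_norm]
        exact not_lt.mpr (rr_mono hj)
      simp_rw [h2]
      simp
    · have h2 : ∀ θ : ℝ, Set.indicator {w : ℂ | rr J < ‖w‖} (fun _ => (1 : ℝ≥0∞))
          (rr j * Complex.exp (θ * Complex.I)) ≤ 1 := by
        intro θ
        exact Set.indicator_le_self' (fun _ _ => zero_le) _
      have h3 : (∫⁻ θ in Set.Ioc 0 (2 * Real.pi), Set.indicator {w : ℂ | rr J < ‖w‖}
          (fun _ => (1 : ℝ≥0∞)) (rr j * Complex.exp (θ * Complex.I))) ≤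
          ENNReal.ofReal (2 * Real.pi) := by
        refine (lintegral_mono fun θ => h2 θ).trans ?_
        rw [setLIntegral_one, Real.volume_Ioc, sub_zero]
      have h4 : ENNReal.ofReal (2 * Real.pi)⁻¹ *
          (∫⁻ θ in Set.Ioc 0 (2 * Real.pi), Set.indicator {w : ℂ | rr J < ‖w‖}
          (fun _ => (1 : ℝ≥0∞)) (rr j * Complex.exp (θ * Complex.I))) ≤ 1 := by
        calc _ ≤ ENNReal.ofReal (2 * Real.pi)⁻¹ * ENNReal.ofReal (2 * Real.pi) := by gcongr
          _ = 1 := by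
            rw [← ENNReal.ofReal_mul (by positivity), inv_mul_cancel₀ (by positivity),
              ENNReal.ofReal_one]
      calc _ ≤ ENNReal.ofReal (ww j) * 1 := by gcongr
        _ = ENNReal.ofReal (ww j) := mul_one _
        _ ≤ ENNReal.ofReal ((1 / 2) ^ j * Real.exp (-((J + 7) * (Ms (J + 1) + 1)))) := by
          apply ENNReal.ofReal_le_ofReal
          refine (ww_le j).trans ?_
          apply mul_le_mul_of_nonneg_left _ (by positivity)
          apply Real.exp_le_exp.mpr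
          have h5 : (Ms (J + 1) : ℝ) ≤ Ms j := by exact_mod_cast Ms_mono hj
          have h6 : ((J : ℝ) + 1) ≤ j := by exact_mod_cast hj
          have h7 : (0 : ℝ) ≤ Ms (J + 1) := (Ms (J + 1)).2
          have h8 : (0 : ℝ) ≤ J := Nat.cast_nonneg _
          have h9 : ((J : ℝ) + 7) * (Ms (J + 1) + 1) ≤ ((j : ℝ) + 6) * (Ms j + 1) := by
            apply mul_le_mul
            · linarith
            · linarith
            · positivity
            · positivity
          linarith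
        _ = _ := ENNReal.ofReal_mul (by positivity)
  refine (ENNReal.tsum_le_tsum h1).trans ?_
  rw [ENNReal.tsum_mul_right, sum_half, ENNReal.ofReal_mul (by norm_num)]
  norm_num


theorem memE_ff {q : ℝ} (hq0 : 0 < q) (hq2 : q ≤ 2) : MemE q (symMeasure ν₀) ff := by
  refine ⟨ff_diff, ?_⟩
  have hle : normE q (symMeasure ν₀) ff ≤ (2 : ℝ≥0∞) ^ (1 / q) := by
    refine iSup_le fun r => ?_
    unfold Mp
    apply ENNReal.rpow_le_rpow _ (by positivity)
    have h2 := ff_sq r.2.1 r.2.2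
    rcases eq_or_lt_of_le hq2 with h | h
    · rw [h]; exact h2
    · have hm : Measurable (fun w : ℂ => ff ((r : ℝ) * w)) := ff_meas.comp (by fun_prop)
      refine (holder ((symMeasure ν₀).restrict (Metric.closedBall 0 1)) hm hq0 h).trans ?_
      rw [Measure.restrict_apply_univ]
      calc _ ≤ (2 : ℝ≥0∞) ^ (q / 2) * 1 ^ (1 - q / 2) := by
            apply mul_le_mul'
            · exact ENNReal.rpow_le_rpow h2 (by positivity)
            · exact ENNReal.rpow_le_rpow ball_mass (by linarith)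
        _ ≤ (2 : ℝ≥0∞) ^ (1 : ℝ) := by
            rw [ENNReal.one_rpow, mul_one]
            exact ENNReal.rpow_le_rpow_of_exponent_le (by norm_num) (by linarith)
        _ = 2 := ENNReal.rpow_one _
  exact lt_of_le_of_lt hle (ENNReal.rpow_lt_top_of_nonneg (by positivity) (by norm_num))

theorem wi_bound {q : ℝ} (hq0 : 0 < q) (hq2 : q < 2) (J : ℕ) {P : Polynomial ℂ}
    (hP1 : ∀ z : ℂ, ‖z‖ ≤ rr J → ‖P.eval z * ff z - 1‖ ≤ 2 * (1 / 2) ^ J)
    (hP2 : ∀ z : ℂ, ‖z‖ < 1 → ‖P.eval z * ff z - 1‖ ≤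
      2 * Real.exp (Ms (J + 1)) * ‖ff z‖ + 1) {r : ℝ} (hr0 : 0 ≤ r) (hr : r < 1) :
    ∫⁻ w in Metric.closedBall 0 1,
      ENNReal.ofReal (‖P.eval (r * w) * ff (r * w) - 1‖ ^ q) ∂(symMeasure ν₀) ≤
    ENNReal.ofReal ((2 * (1 / 2) ^ J) ^ q + (18 * Real.exp (2 * Ms (J + 1))) ^ (q / 2) *
      (2 * Real.exp (-((J + 7) * (Ms (J + 1) + 1)))) ^ (1 - q / 2)) := by
  classical
  set M : ℝ := ((Ms (J + 1) : NNReal) : ℝ) with hM
  have hM0 : 0 ≤ M := (Ms (J + 1)).2
  set G : ℂ → ℂ := fun w => P.eval (r * w) * ff (r * w) - 1 with hG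
  have hGm : Measurable G := (g_meas P).comp (by fun_prop : Measurable (fun w : ℂ => (r : ℂ) * w))
  have hA : MeasurableSet {w : ℂ | rr J < ‖w‖} := measurableSet_lt measurable_const measurable_norm
  have hrw : ∀ w ∈ Metric.closedBall (0:ℂ) 1, ‖(r : ℂ) * w‖ < 1 := by
    intro w hw
    rw [mem_closedBall_zero_iff] at hw
    rw [norm_mul, Complex.norm_real, Real.norm_eq_abs, abs_of_nonneg hr0]
    calc r * ‖w‖ ≤ r * 1 := mul_le_mul_of_nonneg_left hw hr0
      _ < 1 := by linarith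
  have hpt : ∀ w ∈ Metric.closedBall (0:ℂ) 1, ENNReal.ofReal (‖G w‖ ^ q) ≤
      ENNReal.ofReal ((2 * (1 / 2) ^ J) ^ q) +
      Set.indicator {w : ℂ | rr J < ‖w‖} (fun w => ENNReal.ofReal (‖G w‖ ^ q)) w := by
    intro w hw
    by_cases hwJ : rr J < ‖w‖
    · rw [Set.indicator_of_mem (show w ∈ {w : ℂ | rr J < ‖w‖} from hwJ)]
      exact le_add_self
    · rw [Set.indicator_of_notMem (show w ∉ {w : ℂ | rr J < ‖w‖} from hwJ), add_zero]
      apply ENNReal.ofReal_le_ofReal
      apply Real.rpow_le_rpow (norm_nonneg _) _ hq0.le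
      apply hP1
      rw [norm_mul, Complex.norm_real, Real.norm_eq_abs, abs_of_nonneg hr0]
      push Not at hwJ
      calc r * ‖w‖ ≤ 1 * ‖w‖ := mul_le_mul_of_nonneg_right hr.le (norm_nonneg _)
        _ ≤ rr J := by rw [one_mul]; exact hwJ
  have hball : MeasurableSet (Metric.closedBall (0:ℂ) 1) := Metric.isClosed_closedBall.measurableSet
  have h1 : ∫⁻ w in Metric.closedBall 0 1, ENNReal.ofReal (‖G w‖ ^ q) ∂(symMeasure ν₀) ≤
      ENNReal.ofReal ((2 * (1 / 2) ^ J) ^ q) +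
      ∫⁻ w in Metric.closedBall 0 1 ∩ {w : ℂ | rr J < ‖w‖}, ENNReal.ofReal (‖G w‖ ^ q)
        ∂(symMeasure ν₀) := by
    refine (setLIntegral_mono' hball hpt).trans ?_
    rw [lintegral_add_left measurable_const, setLIntegral_const, lintegral_indicator hA,
      Measure.restrict_restrict hA, Set.inter_comm]
    gcongr
    calc _ ≤ ENNReal.ofReal ((2 * (1 / 2) ^ J) ^ q) * 1 := by gcongr; exact ball_mass
      _ = _ := mul_one _
  have hsq : ∫⁻ w in Metric.closedBall 0 1, ENNReal.ofReal (‖G w‖ ^ (2:ℝ)) ∂(symMeasure ν₀) ≤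
      ENNReal.ofReal (18 * Real.exp (2 * M)) := by
    have hpt2 : ∀ w ∈ Metric.closedBall (0:ℂ) 1, ENNReal.ofReal (‖G w‖ ^ (2:ℝ)) ≤
        ENNReal.ofReal (8 * Real.exp (2 * M)) * ENNReal.ofReal (‖ff (r * w)‖ ^ (2:ℝ)) + 2 := by
      intro w hw
      have h2 := hP2 _ (hrw w hw)
      rw [← ENNReal.ofReal_mul (by positivity), show (2 : ℝ≥0∞) = ENNReal.ofReal 2 by norm_num,
        ← ENNReal.ofReal_add (by positivity) (by norm_num)]
      apply ENNReal.ofReal_le_ofReal
      have h3 : Real.exp (2 * M) = Real.exp M ^ 2 := by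
        rw [← Real.exp_nat_mul]; norm_num
      have h4 : ‖G w‖ ≤ 2 * Real.exp M * ‖ff (r * w)‖ + 1 := h2
      rw [h3]
      norm_cast
      have h5 : ‖G w‖ ^ 2 ≤ (2 * Real.exp M * ‖ff (r * w)‖ + 1) ^ 2 :=
        pow_le_pow_left₀ (norm_nonneg _) h4 2
      nlinarith [sq_nonneg (2 * Real.exp M * ‖ff (r * w)‖ - 1)]
    refine (setLIntegral_mono' hball hpt2).trans ?_
    have hffm : Measurable (fun w : ℂ => ENNReal.ofReal (‖ff (r * w)‖ ^ (2:ℝ))) :=
      meas_dil ff_meas 2 r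
    rw [lintegral_add_right _ measurable_const, setLIntegral_const, lintegral_const_mul _ hffm]
    calc _ ≤ ENNReal.ofReal (8 * Real.exp (2 * M)) * 2 + 2 * 1 := by
          gcongr
          · exact ff_sq hr0 hr
          · exact ball_mass
      _ = ENNReal.ofReal (8 * Real.exp (2 * M) * 2 + 2) := by
          rw [mul_one, ENNReal.ofReal_add (by positivity) (by norm_num),
            ENNReal.ofReal_mul (p := 8 * Real.exp (2 * M)) (by positivity)]
          norm_num
      _ ≤ _ := by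
          apply ENNReal.ofReal_le_ofReal
          have : (1:ℝ) ≤ Real.exp (2 * M) := Real.one_le_exp (by linarith)
          linarith
  have h2 : ∫⁻ w in Metric.closedBall 0 1 ∩ {w : ℂ | rr J < ‖w‖}, ENNReal.ofReal (‖G w‖ ^ q)
        ∂(symMeasure ν₀) ≤ ENNReal.ofReal (18 * Real.exp (2 * M)) ^ (q / 2) *
        ENNReal.ofReal (2 * Real.exp (-((J + 7) * (M + 1)))) ^ (1 - q / 2) := by
    refine (holder ((symMeasure ν₀).restrict (Metric.closedBall 0 1 ∩ {w : ℂ | rr J < ‖w‖})) hGm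
      hq0 hq2).trans ?_
    rw [Measure.restrict_apply_univ]
    apply mul_le_mul'
    · apply ENNReal.rpow_le_rpow _ (by positivity)
      refine le_trans ?_ hsq
      exact lintegral_mono_set Set.inter_subset_left
    · exact ENNReal.rpow_le_rpow (tail_mass J) (by linarith)
  refine (h1.trans (add_le_add_right h2 _)).trans (le_of_eq ?_)
  rw [ENNReal.ofReal_rpow_of_nonneg (by positivity) (by positivity),
    ENNReal.ofReal_rpow_of_nonneg (by positivity) (by linarith),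
    ← ENNReal.ofReal_mul (by positivity), ← ENNReal.ofReal_add (by positivity) (by positivity)]

theorem bound_simple {q : ℝ} (hq0 : 0 < q) (hq2 : q < 2) (J : ℕ)
    (hJ : q ≤ (1 - q / 2) * (J + 7)) :
    (2 * (1 / 2 : ℝ) ^ J) ^ q + (18 * Real.exp (2 * Ms (J + 1))) ^ (q / 2) *
      (2 * Real.exp (-((J + 7) * (Ms (J + 1) + 1)))) ^ (1 - q / 2) ≤
    (2 * (1 / 2 : ℝ) ^ J) ^ q + 36 * Real.exp (q - (1 - q / 2) * (J + 7)) := by
  set M : ℝ := ((Ms (J + 1) : NNReal) : ℝ) with hM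
  have hM0 : 0 ≤ M := (Ms (J + 1)).2
  have h1 : (18 * Real.exp (2 * M)) ^ (q / 2) ≤ 18 * Real.exp (q * M) := by
    rw [Real.mul_rpow (by norm_num) (Real.exp_pos _).le, ← Real.exp_mul]
    have h2 : (18 : ℝ) ^ (q / 2) ≤ 18 := by
      calc (18 : ℝ) ^ (q / 2) ≤ 18 ^ (1 : ℝ) :=
            Real.rpow_le_rpow_of_exponent_le (by norm_num) (by linarith)
        _ = 18 := Real.rpow_one _
    have h3 : 2 * M * (q / 2) = q * M := by ring
    rw [h3]
    exact mul_le_mul_of_nonneg_right h2 (Real.exp_pos _).le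
  have h2 : (2 * Real.exp (-((J + 7) * (M + 1)))) ^ (1 - q / 2) ≤
      2 * Real.exp (-((J + 7) * (M + 1)) * (1 - q / 2)) := by
    rw [Real.mul_rpow (by norm_num) (Real.exp_pos _).le, ← Real.exp_mul]
    have h2 : (2 : ℝ) ^ (1 - q / 2) ≤ 2 := by
      calc (2 : ℝ) ^ (1 - q / 2) ≤ 2 ^ (1 : ℝ) :=
            Real.rpow_le_rpow_of_exponent_le (by norm_num) (by linarith)
        _ = 2 := Real.rpow_one _
    exact mul_le_mul_of_nonneg_right h2 (Real.exp_pos _).le
  have h3 : (18 * Real.exp (2 * M)) ^ (q / 2) * (2 * Real.exp (-((J + 7) * (M + 1)))) ^ (1 - q / 2) ≤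
      18 * Real.exp (q * M) * (2 * Real.exp (-((J + 7) * (M + 1)) * (1 - q / 2))) :=
    mul_le_mul h1 h2 (by positivity) (by positivity)
  have h4 : 18 * Real.exp (q * M) * (2 * Real.exp (-((J + 7) * (M + 1)) * (1 - q / 2))) =
      36 * Real.exp (q * M + -((J + 7) * (M + 1)) * (1 - q / 2)) := by
    rw [Real.exp_add]; ring
  rw [h4] at h3
  have h5 : Real.exp (q * M + -((J + 7) * (M + 1)) * (1 - q / 2)) ≤
      Real.exp (q - (1 - q / 2) * (J + 7)) := by
    apply Real.exp_le_exp.mpr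
    nlinarith
  linarith

theorem wi {q : ℝ} (hq0 : 0 < q) (hq2 : q < 2) : WeaklyInvertible q (symMeasure ν₀) ff := by
  refine ⟨memE_ff hq0 hq2.le, ?_⟩
  choose P hP1 hP2 using exists_P
  refine ⟨P, ?_⟩
  set b : ℕ → ℝ := fun J => (2 * (1 / 2 : ℝ) ^ J) ^ q +
    36 * Real.exp (q - (1 - q / 2) * (J + 7)) with hb
  have hc : 0 < 1 - q / 2 := by linarith
  have hbt : Tendsto b atTop (𝓝 0) := by
    have h1 : Tendsto (fun J : ℕ => (2 * (1 / 2 : ℝ) ^ J) ^ q) atTop (𝓝 0) := by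
      have h2 : Tendsto (fun J : ℕ => 2 * (1 / 2 : ℝ) ^ J) atTop (𝓝 0) := by
        have := (tendsto_pow_atTop_nhds_zero_of_lt_one (r := (1 / 2 : ℝ)) (by norm_num)
          (by norm_num)).const_mul 2
        simpa using this
      have h3 := h2.rpow_const (p := q) (Or.inr hq0.le)
      rwa [Real.zero_rpow hq0.ne'] at h3
    have h2 : Tendsto (fun J : ℕ => 36 * Real.exp (q - (1 - q / 2) * (J + 7))) atTop (𝓝 0) := by
      have h3 : Tendsto (fun J : ℕ => q - (1 - q / 2) * ((J : ℝ) + 7)) atTop atBot := by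
        have h4 : Tendsto (fun J : ℕ => (1 - q / 2) * ((J : ℝ) + 7)) atTop atTop :=
          (tendsto_atTop_add_const_right _ _ tendsto_natCast_atTop_atTop).const_mul_atTop hc
        simpa [sub_eq_add_neg] using tendsto_atBot_add_const_left atTop q
          (tendsto_neg_atTop_atBot.comp h4)
      have h5 := (Real.tendsto_exp_atBot.comp h3).const_mul 36
      simpa using h5
    have := h1.add h2
    rwa [add_zero] at this
  have hbe : Tendsto (fun J => ENNReal.ofReal (b J) ^ (1 / q)) atTop (𝓝 0) := by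
    have h1 : Tendsto (fun J => ENNReal.ofReal (b J)) atTop (𝓝 0) := by
      have := ENNReal.tendsto_ofReal hbt
      rwa [ENNReal.ofReal_zero] at this
    have h2 := ((ENNReal.continuous_rpow_const (y := 1 / q)).tendsto 0).comp h1
    rw [ENNReal.zero_rpow_of_pos (by positivity)] at h2
    exact h2
  have hev : ∀ᶠ J : ℕ in atTop, q ≤ (1 - q / 2) * ((J : ℝ) + 7) := by
    have h4 : Tendsto (fun J : ℕ => (1 - q / 2) * ((J : ℝ) + 7)) atTop atTop :=
      (tendsto_atTop_add_const_right _ _ tendsto_natCast_atTop_atTop).const_mul_atTop hc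
    exact h4.eventually_ge_atTop q
  refine tendsto_of_tendsto_of_tendsto_of_le_of_le' tendsto_const_nhds hbe
    (Eventually.of_forall fun _ => zero_le) ?_
  filter_upwards [hev] with J hJ
  refine iSup_le fun r => ?_
  unfold Mp
  apply ENNReal.rpow_le_rpow _ (by positivity)
  refine (wi_bound hq0 hq2 J (hP1 J) (hP2 J) r.2.1 r.2.2).trans ?_
  exact ENNReal.ofReal_le_ofReal (bound_simple hq0 hq2 J hJ)

theorem radial : IsRadialPart ν₀ := by
  refine ⟨?_, ?_, ?_, ?_⟩
  · unfold ν₀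
    rw [Measure.sum_apply _ MeasurableSet.univ]
    refine lt_of_le_of_lt ?_ (ENNReal.one_lt_top)
    refine le_trans (le_of_eq ?_) sum_ww
    refine tsum_congr fun j => ?_
    simp
  · unfold ν₀
    rw [Measure.sum_apply _ measurableSet_Icc.compl]
    simp only [Measure.smul_apply, smul_eq_mul, ENNReal.tsum_eq_zero, mul_eq_zero]
    intro j
    right
    rw [Measure.dirac_apply' _ measurableSet_Icc.compl, Set.indicator_of_notMem]
    simp only [Set.mem_compl_iff, not_not]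
    exact ⟨(rr_pos j).le, (rr_lt_one j).le⟩
  · unfold ν₀
    rw [Measure.sum_apply _ (measurableSet_singleton _)]
    simp only [Measure.smul_apply, smul_eq_mul, ENNReal.tsum_eq_zero, mul_eq_zero]
    intro j
    right
    rw [Measure.dirac_apply' _ (measurableSet_singleton _), Set.indicator_of_notMem]
    simp only [Set.mem_singleton_iff]
    exact (rr_pos j).ne'
  · intro r _ hr
    obtain ⟨k, hk⟩ := exists_rr hr
    unfold ν₀
    rw [Measure.sum_apply _ measurableSet_Icc]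
    refine lt_of_lt_of_le ?_ (ENNReal.le_tsum k)
    rw [Measure.smul_apply, smul_eq_mul, Measure.dirac_apply' _ measurableSet_Icc,
      Set.indicator_of_mem (show rr k ∈ Set.Icc r 1 from ⟨(hk k le_rfl).le, (rr_lt_one k).le⟩)]
    simp only [Pi.one_apply, mul_one]
    exact ENNReal.ofReal_pos.mpr (ww_pos k)

/-- **Weak invertibility does not pass from `E^q(μ)` to `E^p(μ)`.**  There are a symmetric measure
`μ` on the closed unit disc and a function `f ∈ E^2(μ)` which is weakly invertible in `E^q(μ)` for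
all `0 < q < 2` but is not weakly invertible in `E^2(μ)`. -/
theorem result : ∃ ν : Measure ℝ, IsRadialPart ν ∧ ∃ f : ℂ → ℂ,
    MemE 2 (symMeasure ν) f ∧
    (∀ q : ℝ, 0 < q → q < 2 → WeaklyInvertible q (symMeasure ν) f) ∧
    ¬ WeaklyInvertible 2 (symMeasure ν) f :=
  ⟨ν₀, radial, ff, memE_ff (by norm_num) le_rfl, fun _ hq0 hq2 => wi hq0 hq2, not_wi⟩

end Pool.Agent.Results.MP_d61770_an.NotWeaklyInvertible
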